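import Pool.Agent.R5.HY.Game

/-!
# MP_bed60c_co: the hyperopic cop number of a join may exceed `Υ`
-/

namespace Pool.Agent.Results.MP_bed60c_co.HyperopicJoin

open Pool.Agent.R5.HY

/-- A clique on a vertex `c` and `K` blocks of `N` vertices each, and `K` further vertices, the
`l`-th of them being adjacent to all blocks but the `l`-th. -/
def G (K N : ℕ) : SimpleGraph (Option (Fin K × Fin N) ⊕ Fin K) where
  Adj
    | Sum.inl a, Sum.inl b => a ≠ b
    | Sum.inl (some x), Sum.inr l => x.1 ≠ l
    | Sum.inr l, Sum.inl (some x) => x.1 ≠ l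
    | _, _ => False
  symm := by
    constructor
    rintro ((_ | a) | a) ((_ | b) | b) h <;> first | exact h | exact Ne.symm h
  loopless := by
    constructor
    rintro ((_ | a) | a) h
    · exact h rfl
    · exact h rfl
    · exact h

lemma G_connected {K N : ℕ} (hK : 2 ≤ K) (hN : 1 ≤ N) : (G K N).Connected := by
  have : Nonempty (Option (Fin K × Fin N) ⊕ Fin K) := ⟨Sum.inl none⟩
  rw [SimpleGraph.connected_iff_exists_forall_reachable]
  refine ⟨Sum.inl none, ?_⟩
  have h1 : ∀ a : Option (Fin K × Fin N), (G K N).Reachable (Sum.inl none) (Sum.inl a) := by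
    intro a
    by_cases h : (none : Option (Fin K × Fin N)) = a
    · subst h; exact SimpleGraph.Reachable.refl _
    · exact SimpleGraph.Adj.reachable (show (none : Option (Fin K × Fin N)) ≠ a from h)
  rintro (a | l)
  · exact h1 a
  · obtain ⟨i, hi⟩ : ∃ i : Fin K, i ≠ l := by
      have : Nontrivial (Fin K) := Fin.nontrivial_iff_two_le.mpr hK
      exact exists_ne l
    refine (h1 (some (i, ⟨0, hN⟩))).trans (SimpleGraph.Adj.reachable ?_)
    exact hi

/-- The robber avoids `k ≤ K` cops. -/
theorem robber {W : Type*} (J : SimpleGraph W) {K N k : ℕ} (hk : k ≤ K)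
    (hN : 2 * k + 1 ≤ N) :
    ¬ HWin (join (G K N) J) k := by
  classical
  -- a vertex of the block `i` avoided by both `P` and `Q`
  have hex : ∀ (P Q : Fin k → (Option (Fin K × Fin N) ⊕ Fin K) ⊕ W) (i : Fin K),
      ∃ a : Fin N, (∀ j, P j ≠ Sum.inl (Sum.inl (some (i, a)))) ∧
        ∀ j, Q j ≠ Sum.inl (Sum.inl (some (i, a))) := by
    intro P Q i
    by_contra hcon
    push Not at hcon
    have hsub : (Finset.univ : Finset (Fin N)).image
        (fun a => (Sum.inl (Sum.inl (some (i, a))) : (Option (Fin K × Fin N) ⊕ Fin K) ⊕ W))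
        ⊆ Finset.univ.image P ∪ Finset.univ.image Q := by
      intro x hx
      simp only [Finset.mem_image, Finset.mem_univ, true_and, Finset.mem_union] at hx ⊢
      obtain ⟨a, rfl⟩ := hx
      by_cases h : ∃ j, P j = Sum.inl (Sum.inl (some (i, a)))
      · exact Or.inl h
      · push Not at h
        exact Or.inr (hcon a h)
    have h1 := Finset.card_le_card hsub
    rw [Finset.card_image_of_injective] at h1
    · have h2 := Finset.card_union_le (Finset.univ.image P) (Finset.univ.image Q)
      have h3 := Finset.card_image_le (s := Finset.univ) (f := P)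
      have h4 := Finset.card_image_le (s := Finset.univ) (f := Q)
      simp only [Finset.card_univ, Fintype.card_fin] at h1 h3 h4
      omega
    · intro a b hab
      simpa using hab
  let f : (Fin k → (Option (Fin K × Fin N) ⊕ Fin K) ⊕ W) →
      (Fin k → (Option (Fin K × Fin N) ⊕ Fin K) ⊕ W) →
      (Option (Fin K × Fin N) ⊕ Fin K) ⊕ W := fun P Q =>
    if h : ∃ l, ∀ j, P j ≠ Sum.inl (Sum.inr l) then
      Sum.inl (Sum.inl (some (h.choose, (hex P Q h.choose).choose)))
    else Sum.inl (Sum.inl none)
  -- if all the special vertices are occupied then all cops are there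
  have hall : ∀ P : Fin k → (Option (Fin K × Fin N) ⊕ Fin K) ⊕ W,
      (¬ ∃ l, ∀ j, P j ≠ Sum.inl (Sum.inr l)) → ∀ j, ∃ l, P j = Sum.inl (Sum.inr l) := by
    intro P h
    push Not at h
    choose g hg using h
    have hinj : Function.Injective g := by
      intro a b hab
      have := (hg a).symm.trans ((congrArg P hab).trans (hg b))
      simpa using this
    have hcard := Fintype.card_le_of_injective g hinj
    simp only [Fintype.card_fin] at hcard
    have hkK : k = K := le_antisymm hk hcard
    have hsurj : Function.Surjective g := by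
      subst hkK
      exact Finite.surjective_of_injective hinj
    intro j
    obtain ⟨l, rfl⟩ := hsurj j
    exact ⟨l, hg l⟩
  apply not_HWin f
  · intro P Q P' Q'
    have key : ∀ P Q, ∃ a, f P Q = Sum.inl (Sum.inl a) := by
      intro P Q
      by_cases h : ∃ l, ∀ j, P j ≠ Sum.inl (Sum.inr l)
      · exact ⟨_, dif_pos h⟩
      · exact ⟨_, dif_neg h⟩
    obtain ⟨a, ha⟩ := key P Q
    obtain ⟨b, hb⟩ := key P' Q'
    rw [ha, hb]
    by_cases hab : a = b
    · left; rw [hab]
    · right; exact hab
  · intro P Q i
    by_cases h : ∃ l, ∀ j, P j ≠ Sum.inl (Sum.inr l)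
    · rw [show f P Q = _ from dif_pos h]
      exact (hex P Q h.choose).choose_spec.1 i
    · rw [show f P Q = _ from dif_neg h]
      obtain ⟨l, hl⟩ := hall P h i
      rw [hl]; simp
  · intro P Q hinv i
    by_cases h : ∃ l, ∀ j, P j ≠ Sum.inl (Sum.inr l)
    · rw [show f P Q = _ from dif_pos h]
      exact (hex P Q h.choose).choose_spec.2 i
    · exfalso
      rw [show f P Q = _ from dif_neg h] at hinv
      obtain ⟨l, hl⟩ := hall P h i
      have := hinv i
      rw [hl] at this
      exact this
  · intro P Q P' hinv hmv i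
    by_cases h : ∃ l, ∀ j, P j ≠ Sum.inl (Sum.inr l)
    · exfalso
      apply hinv
      intro j
      have h1 := (hex P Q h.choose).choose_spec.1 j
      have h2 := h.choose_spec j
      rw [show f P Q = _ from dif_pos h]
      rcases hPj : P j with (a | l) | w
      · rw [hPj] at h1
        intro hcon
        apply h1
        rw [hcon]
      · rw [hPj] at h2
        show h.choose ≠ l
        intro hcon
        apply h2
        rw [hcon]
      · trivial
    · rw [show f P Q = _ from dif_neg h]
      obtain ⟨l, hl⟩ := hall P h i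
      intro hcon
      rcases hmv i with h1 | h1
      · rw [← h1, hl] at hcon
        simp at hcon
      · rw [hcon, hl] at h1
        exact h1

theorem upsilon_le {W : Type*} [Fintype W] [Nonempty W] (J : SimpleGraph W) (N : ℕ) :
    upsilon (join (G (Fintype.card W + 1) N) J) ≤ Fintype.card W + 1 := by
  classical
  apply Nat.sInf_le
  refine ⟨Finset.univ.image (fun l => Sum.inl (Sum.inr l)), ?_, ?_, ?_⟩
  · exact ⟨Sum.inl (Sum.inr 0), by simp⟩
  · rw [Finset.card_image_of_injective]
    · simp
    · intro a b hab
      simpa using hab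
  · have hsub : {v | ∀ u ∈ (Finset.univ.image (fun l => Sum.inl (Sum.inr l)) :
        Finset ((Option (Fin (Fintype.card W + 1) × Fin N) ⊕ Fin (Fintype.card W + 1)) ⊕ W)),
        (join (G (Fintype.card W + 1) N) J).Adj u v} ⊆
        Sum.inr '' (Set.univ : Set W) := by
      intro v hv
      rw [Set.mem_ofPred_eq] at hv
      rcases v with (a | l) | w
      · exfalso
        rcases a with _ | x
        · exact hv (Sum.inl (Sum.inr 0)) (by simp)
        · exact hv (Sum.inl (Sum.inr x.1)) (by simp) rfl
      · exfalso
        exact hv (Sum.inl (Sum.inr 0)) (by simp)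
      · exact ⟨w, trivial, rfl⟩
    refine (Set.ncard_le_ncard hsub (Set.toFinite _)).trans ?_
    rw [Set.ncard_image_of_injective _ Sum.inr_injective, Set.ncard_univ, Nat.card_eq_fintype_card]
    omega

/-- For every graph `J` with `n ≥ 1` vertices (connected or not) there is a finite connected graph
`G` with `Υ(G ∨ J) ≤ n + 1` and `c_H(G ∨ J) ≥ n + 2`; so `c_H(G ∨ J) ≤ Υ(G ∨ J)` fails. -/
theorem result {W : Type} [Fintype W] [Nonempty W] (J : SimpleGraph W) :
    ∃ (V : Type) (_ : Fintype V) (G : SimpleGraph V), G.Connected ∧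
      upsilon (join G J) ≤ Fintype.card W + 1 ∧ Fintype.card W + 2 ≤ cH (join G J) ∧
      upsilon (join G J) < cH (join G J) := by
  classical
  have hW : 1 ≤ Fintype.card W := Fintype.card_pos
  set K := Fintype.card W + 1 with hK
  have h1 : upsilon (join (G K (2 * K + 1)) J) ≤ K := upsilon_le J (2 * K + 1)
  have h2 : K < cH (join (G K (2 * K + 1)) J) := by
    apply lt_cH
    intro k hk
    exact robber J hk (by omega)
  refine ⟨_, inferInstance, G K (2 * K + 1), G_connected (by omega) (by omega), h1, h2, ?_⟩
  omega

end Pool.Agent.Results.MP_bed60c_co.HyperopicJoin
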